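import Mathlib

/-! Input of the step from tuples of points to the abstract core. -/

set_option autoImplicit false

namespace Pool.Agent.P.MP_77a832_co.KG

open Finset

/-- visits of `a` in the window of height `e` around `B` -/
def wn {α : Type} (S : α → Finset ℕ) (a : α) (e B : ℕ) : Finset ℕ :=
  (S a).filter fun A => A / 16 ^ e = B / 16 ^ e

/-- the five tail bounds for pairs (point, visited base window) -/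
structure Tails {α : Type} (P : Finset α) (S : α → Finset ℕ) (J : ℕ) (C : ℝ) : Prop where
  lo : ∀ e, e ≤ J → ∀ D : ℝ, 0 < D → ∀ Q : Finset (α × ℕ),
    (∀ c ∈ Q, c.1 ∈ P ∧ c.2 ∈ S c.1 ∧ D * ((wn S c.1 e c.2).card : ℝ) < 2 ^ e) →
    (Q.card : ℝ) * D ≤ C * (P.card * 2 ^ J)
  up : ∀ e, e ≤ J → ∀ z : ℝ, 1 ≤ z → ∀ Q : Finset (α × ℕ),
    (∀ c ∈ Q, c.1 ∈ P ∧ c.2 ∈ S c.1 ∧ z ^ 4 * 2 ^ e < ((wn S c.1 e c.2).card : ℝ)) →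
    (Q.card : ℝ) * z ≤ C * (P.card * 2 ^ J)
  bl : ∀ e, e ≤ J → ∀ b : ℝ, 0 < b → ∀ Q : Finset (α × ℕ),
    (∀ c ∈ Q, c.1 ∈ P ∧ c.2 ∈ S c.1 ∧
      (((wn S c.1 e c.2).filter fun A => A < c.2).card : ℝ) < b * 2 ^ e) →
    (Q.card : ℝ) ≤ C * (b + 1 / 2 ^ e) * (P.card * 2 ^ J)
  br : ∀ e, e ≤ J → ∀ b : ℝ, 0 < b → ∀ Q : Finset (α × ℕ),
    (∀ c ∈ Q, c.1 ∈ P ∧ c.2 ∈ S c.1 ∧
      (((wn S c.1 e c.2).filter fun A => c.2 < A).card : ℝ) < b * 2 ^ e) →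
    (Q.card : ℝ) ≤ C * (b + 1 / 2 ^ e) * (P.card * 2 ^ J)
  hv : ∀ e, e ≤ J → ∀ h, h ≤ e → ∀ D a z : ℝ, 0 < D → 0 < a → 1 ≤ z → z ^ 4 * 2 ^ h ≤ a * 2 ^ e →
    ∀ Q : Finset (α × ℕ),
    (∀ c ∈ Q, c.1 ∈ P ∧ c.2 ∈ S c.1 ∧ ((wn S c.1 e c.2).card : ℝ) ≤ D * 2 ^ e ∧
      ∃ u : ℕ, a * 2 ^ e < (((wn S c.1 e c.2).filter fun A => A / 16 ^ h = u).card : ℝ)) →
    (Q.card : ℝ) * (z * a) ≤ C * D * (P.card * 2 ^ J)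
  sp : ∀ e, e ≤ J → ∀ z : ℝ, 1 ≤ z → ∀ F : Finset ℕ, (∀ u ∈ F, u < 16 ^ (J - e)) →
    (F.card : ℝ) * z ^ 4 ≤ 16 ^ (J - e) → ∀ Q : Finset (α × ℕ),
    (∀ c ∈ Q, c.1 ∈ P ∧ c.2 ∈ S c.1 ∧ c.2 / 16 ^ e ∈ F) →
    (Q.card : ℝ) * z ≤ C * (P.card * 2 ^ J)

/-- tuples `t` made of a point `q t` and three points `p i t` to its left, each pair labelled by
the base window that contains its slope -/
structure Tup {α τ : Type} (x y : α → ℝ) (P : Finset α) (Th : ℕ → ℝ) (S : α → Finset ℕ)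
    (T : Finset τ) (q : τ → α) (p : Fin 3 → τ → α) (lab : Fin 3 → τ → ℕ)
    (J : ℕ) (om C : ℝ) : Prop where
  ne : T.Nonempty
  pP : ∀ t ∈ T, ∀ i, p i t ∈ P
  xlt : ∀ t ∈ T, ∀ i, x (p i t) < x (q t)
  slo : ∀ t ∈ T, ∀ i, Th (lab i t) * (x (q t) - x (p i t)) < y (q t) - y (p i t)
  shi : ∀ t ∈ T, ∀ i, y (q t) - y (p i t) < Th (lab i t + 1) * (x (q t) - x (p i t))
  mem : ∀ t ∈ T, ∀ i, lab i t ∈ S (p i t)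
  dif : ∀ t ∈ T, ∀ i j, i ≠ j → lab i t ≠ lab j t
  Sle : ∀ t ∈ T, ∀ i, ((S (p i t)).card : ℝ) ≤ C * 2 ^ J
  pair : ∀ (π : Fin 3 → α) (i j : Fin 3), i ≠ j → ∀ (B B' : ℕ) (Q : Finset τ), Q ⊆ T →
    (∀ t ∈ Q, (∀ k, p k t = π k) ∧ lab i t = B ∧ lab j t = B') → (Q.card : ℝ) ≤ om
  trip : ∃ F : Finset (Fin 3 → α), (∀ t ∈ T, (fun k => p k t) ∈ F) ∧
    (F.card : ℝ) * (om * 4 ^ J) ≤ C * T.card
  marg : ∀ (i : Fin 3) (a : α) (B : ℕ) (Q : Finset τ), Q ⊆ T →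
    (∀ t ∈ Q, p i t = a ∧ lab i t = B) → (Q.card : ℝ) * (P.card * 2 ^ J) ≤ C * T.card

/-- For large `J` such tuples do not exist among points in general position. -/
def S_GLUE : Prop := ∀ C : ℝ, ∃ J0 : ℕ, ∀ J, J0 ≤ J → ∀ {α τ : Type} (x y : α → ℝ) (P : Finset α)
  (Th : ℕ → ℝ) (S : α → Finset ℕ) (T : Finset τ) (q : τ → α) (p : Fin 3 → τ → α)
  (lab : Fin 3 → τ → ℕ) (om : ℝ),
  (∀ B B', B ≤ B' → B' ≤ 16 ^ J → Th B ≤ Th B') →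
  (∀ a ∈ P, ∀ b ∈ P, a ≠ b → x a ≠ x b) →
  (∀ a ∈ P, ∀ b ∈ P, ∀ c ∈ P, a ≠ b → a ≠ c → b ≠ c →
    (x b - x a) * (y c - y a) ≠ (x c - x a) * (y b - y a)) →
  (∀ a, ∀ B ∈ S a, B < 16 ^ J) →
  Tails P S J C → Tup x y P Th S T q p lab J om C → False

end Pool.Agent.P.MP_77a832_co.KG
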