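import Mathlib
import Pool.Agent.P.MP_77a832_co.KG.Defs

/-! Counting tuples through their marginals and through their fibres. -/

set_option autoImplicit false

namespace Pool.Agent.P.MP_77a832_co.KG

open Finset

/-- the tuples with the property `φ` are at most a share `K / u` of `T` -/
def Sm {τ : Type} (T : Finset τ) (u K : ℝ) (φ : τ → Prop) : Prop :=
  ∀ Q : Finset τ, Q ⊆ T → (∀ t ∈ Q, φ t) → (Q.card : ℝ) * u ≤ K * T.card

lemma Sm.imp {τ : Type} {T : Finset τ} {u K : ℝ} {φ ψ : τ → Prop} (h : Sm T u K φ)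
    (hi : ∀ t ∈ T, ψ t → φ t) : Sm T u K ψ :=
  fun Q hQ hq => h Q hQ fun t ht => hi t (hQ ht) (hq t ht)

lemma Sm.le {τ : Type} {T : Finset τ} {u K u' K' : ℝ} {φ : τ → Prop} (h : Sm T u K φ)
    (hu : u' ≤ u) (hK : K ≤ K') : Sm T u' K' φ := by
  intro Q hQ hq
  have h1 := h Q hQ hq
  have h2 : (Q.card : ℝ) * u' ≤ Q.card * u := mul_le_mul_of_nonneg_left hu (Nat.cast_nonneg _)
  have h3 : K * T.card ≤ K' * T.card := mul_le_mul_of_nonneg_right hK (Nat.cast_nonneg _)
  linarith

lemma Sm.or {τ : Type} {T : Finset τ} {u K K' : ℝ} {φ ψ : τ → Prop} (h : Sm T u K φ)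
    (h' : Sm T u K' ψ) : Sm T u (K + K') fun t => φ t ∨ ψ t := by
  classical
  intro Q hQ hq
  have h1 := h (Q.filter φ) ((filter_subset _ _).trans hQ) fun t ht => (mem_filter.mp ht).2
  have h2 := h' (Q.filter fun t => ¬ φ t) ((filter_subset _ _).trans hQ) fun t ht =>
    (hq t (mem_filter.mp ht).1).resolve_left (mem_filter.mp ht).2
  have h3 : ((Q.filter φ).card : ℝ) + (Q.filter fun t => ¬ φ t).card = Q.card := by
    exact_mod_cast card_filter_add_card_filter_not (s := Q) φ
  rw [← h3]
  linarith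

lemma Sm.bex {τ ι : Type} {T : Finset τ} {u K : ℝ} {φ : ι → τ → Prop} (s : Finset ι)
    (h : ∀ i ∈ s, Sm T u K (φ i)) : Sm T u (s.card * K) fun t => ∃ i ∈ s, φ i t := by
  classical
  induction s using Finset.induction_on with
  | empty =>
    intro Q _ hq
    have : Q = ∅ := by
      rcases Q.eq_empty_or_nonempty with e | ⟨t, ht⟩
      · exact e
      · obtain ⟨i, hi, _⟩ := hq t ht
        exact absurd hi (notMem_empty _)
    simp [this]
  | insert a s ha ih =>
    have h1 := (h a (mem_insert_self _ _)).or (ih fun i hi => h i (mem_insert_of_mem hi))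
    rw [card_insert_of_notMem ha]
    refine (h1.imp ?_).le le_rfl (le_of_eq ?_)
    · rintro t _ ⟨i, hi, hφ⟩
      rcases mem_insert.mp hi with e | e
      · left; rw [← e]; exact hφ
      · right; exact ⟨i, e, hφ⟩
    · push_cast; ring

lemma card_le_fib {τ β : Type} [DecidableEq β] (Q : Finset τ) (g : τ → β) (I : Finset β) (r m : ℝ)
    (hg : ∀ t ∈ Q, g t ∈ I)
    (h : ∀ b ∈ I, ((Q.filter fun t => g t = b).card : ℝ) * r ≤ m) :
    (Q.card : ℝ) * r ≤ I.card * m := by
  have e : (Q.card : ℝ) = ∑ b ∈ I, ((Q.filter fun t => g t = b).card : ℝ) := by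
    exact_mod_cast card_eq_sum_card_fiberwise (fun t ht => hg t ht)
  rw [e, sum_mul]
  calc ∑ b ∈ I, ((Q.filter fun t => g t = b).card : ℝ) * r ≤ ∑ _b ∈ I, m := sum_le_sum h
    _ = I.card * m := by rw [sum_const, nsmul_eq_mul]

variable {α τ : Type} {x y : α → ℝ} {P : Finset α} {Th : ℕ → ℝ} {S : α → Finset ℕ}
  {T : Finset τ} {q : τ → α} {p : Fin 3 → τ → α} {lab : Fin 3 → τ → ℕ} {J : ℕ} {om C : ℝ}

lemma Tup.C_nonneg (h : Tup x y P Th S T q p lab J om C) : 0 ≤ C := by
  obtain ⟨t, ht⟩ := h.ne
  have h1 := h.Sle t ht 0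
  have h2 : (0 : ℝ) < 2 ^ J := by positivity
  have h3 : (0 : ℝ) ≤ C * 2 ^ J := (Nat.cast_nonneg _).trans h1
  exact nonneg_of_mul_nonneg_left h3 h2

lemma Tup.om_nonneg (h : Tup x y P Th S T q p lab J om C) : 0 ≤ om := by
  obtain ⟨t, _⟩ := h.ne
  have := h.pair (fun k => p k t) 0 1 (by decide) 0 0 ∅ (empty_subset _) (by simp)
  simpa using this

lemma Tup.P_pos (h : Tup x y P Th S T q p lab J om C) : (0 : ℝ) < P.card * 2 ^ J := by
  obtain ⟨t, ht⟩ := h.ne
  have : 0 < P.card := card_pos.mpr ⟨_, h.pP t ht 0⟩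
  have : (0 : ℝ) < P.card := by exact_mod_cast this
  positivity

/-- a bound for pairs (point, window) gives a bound for tuples -/
lemma Tup.sm_marg (h : Tup x y P Th S T q p lab J om C) (i : Fin 3) (φ : α × ℕ → Prop) (u K : ℝ)
    (hu : 0 ≤ u)
    (hK : ∀ Q : Finset (α × ℕ), (∀ c ∈ Q, c.1 ∈ P ∧ c.2 ∈ S c.1 ∧ φ c) →
      (Q.card : ℝ) * u ≤ K * (P.card * 2 ^ J)) :
    Sm T u (K * C) fun t => φ (p i t, lab i t) := by
  classical
  intro Q hQ hq
  set g : τ → α × ℕ := fun t => (p i t, lab i t) with hg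
  have h1 := card_le_fib Q g (Q.image g) (P.card * 2 ^ J) (C * T.card)
    (fun t ht => mem_image_of_mem _ ht) (fun b _ => h.marg i b.1 b.2 _
      ((filter_subset _ _).trans hQ) (fun t ht => by
        have := (mem_filter.mp ht).2
        exact ⟨congrArg Prod.fst this, congrArg Prod.snd this⟩))
  have h2 := hK (Q.image g) (by
    intro c hc
    obtain ⟨t, ht, rfl⟩ := mem_image.mp hc
    exact ⟨h.pP t (hQ ht) i, h.mem t (hQ ht) i, hq t ht⟩)
  have h3 := h.P_pos
  have h4 : (0 : ℝ) ≤ C * T.card := mul_nonneg h.C_nonneg (Nat.cast_nonneg _)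
  have h5 : (Q.card : ℝ) * u * (P.card * 2 ^ J) ≤ K * C * T.card * (P.card * 2 ^ J) := by
    calc (Q.card : ℝ) * u * (P.card * 2 ^ J) = Q.card * (P.card * 2 ^ J) * u := by ring
      _ ≤ (Q.image g).card * (C * T.card) * u := mul_le_mul_of_nonneg_right h1 hu
      _ = (Q.image g).card * u * (C * T.card) := by ring
      _ ≤ K * (P.card * 2 ^ J) * (C * T.card) := mul_le_mul_of_nonneg_right h2 h4
      _ = _ := by ring
  exact le_of_mul_le_mul_right h5 h3

/-- few windows for each triple, each with few visits -/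
lemma Tup.sm_fib (h : Tup x y P Th S T q p lab J om C) (i : Fin 3) (e : ℕ)
    (V : (Fin 3 → α) → Finset ℕ) (r N u K : ℝ) (hu : 0 ≤ u) (hN : 0 ≤ N)
    (hV : ∀ π, ((V π).card : ℝ) ≤ r) (hK : r * N * u ≤ K * 2 ^ J) :
    Sm T u (K * (C * C)) fun t => lab i t / 16 ^ e ∈ V (fun k => p k t) ∧
      ((wn S (p i t) e (lab i t)).card : ℝ) ≤ N := by
  classical
  intro Q hQ hq
  obtain ⟨F, hF, hFc⟩ := h.trip
  obtain ⟨j, hij⟩ : ∃ j : Fin 3, i ≠ j := ⟨i + 1, by fin_cases i <;> decide⟩
  have hC := h.C_nonneg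
  have hom := h.om_nonneg
  have hr : 0 ≤ r := by
    obtain ⟨t, _⟩ := h.ne
    exact (Nat.cast_nonneg _).trans (hV fun k => p k t)
  have h1 := card_le_fib Q (fun t => fun k => p k t) F 1 (r * (N * (C * 2 ^ J * om)))
    (fun t ht => hF t (hQ ht)) (by
      intro π _
      set Q1 := Q.filter fun t => (fun k => p k t) = π with hQ1
      have a1 := card_le_fib Q1 (fun t => lab i t / 16 ^ e) (V π) 1 (N * (C * 2 ^ J * om))
        (fun t ht => by
          have := (hq t (mem_filter.mp ht).1).1
          rwa [(mem_filter.mp ht).2] at this) (by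
          intro v _
          set Q2 := Q1.filter fun t => lab i t / 16 ^ e = v with hQ2
          rcases Q2.eq_empty_or_nonempty with e0 | ⟨t0, ht0⟩
          · rw [e0]; simp only [card_empty, Nat.cast_zero, zero_mul]; positivity
          have m0 := mem_filter.mp ht0
          have m1 := mem_filter.mp m0.1
          have a2 := card_le_fib Q2 (fun t => lab i t) (wn S (p i t0) e (lab i t0)) 1
            (C * 2 ^ J * om) (fun t ht => by
              have n0 := mem_filter.mp ht
              have n1 := mem_filter.mp n0.1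
              have e1 : p i t = p i t0 := (congrFun n1.2 i).trans (congrFun m1.2 i).symm
              refine mem_filter.mpr ⟨?_, n0.2.trans m0.2.symm⟩
              rw [← e1]; exact h.mem t (hQ n1.1) i) (by
              intro B _
              set Q3 := Q2.filter fun t => lab i t = B with hQ3
              have a3 := card_le_fib Q3 (fun t => lab j t) (S (p j t0)) 1 om (fun t ht => by
                have n0 := mem_filter.mp (mem_filter.mp ht).1
                have n1 := mem_filter.mp n0.1
                have e1 : p j t = p j t0 := (congrFun n1.2 j).trans (congrFun m1.2 j).symm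
                rw [← e1]; exact h.mem t (hQ n1.1) j) (by
                intro B' _
                rw [mul_one]
                refine h.pair π i j hij B B' _ ?_ ?_
                · intro t ht
                  exact hQ (mem_filter.mp (mem_filter.mp (mem_filter.mp
                    (mem_filter.mp ht).1).1).1).1
                · intro t ht
                  have n3 := mem_filter.mp ht
                  have n2 := mem_filter.mp n3.1
                  have n1 := mem_filter.mp (mem_filter.mp n2.1).1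
                  exact ⟨fun k => congrFun n1.2 k, n2.2, n3.2⟩)
              exact a3.trans (mul_le_mul_of_nonneg_right (h.Sle t0 (hQ m1.1) j) hom))
          exact a2.trans (mul_le_mul_of_nonneg_right (hq t0 m1.1).2 (by positivity)))
      exact a1.trans (mul_le_mul_of_nonneg_right (hV π) (by positivity)))
  rw [mul_one] at h1
  have h2 : (0 : ℝ) < 2 ^ J := by positivity
  have h3 : (4 : ℝ) ^ J = 2 ^ J * 2 ^ J := by rw [← mul_pow]; norm_num
  have h4 : (0 : ℝ) ≤ F.card * (C * 2 ^ J * om) := by positivity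
  have hK0 : 0 ≤ K := by
    have : 0 ≤ K * 2 ^ J := le_trans (by positivity) hK
    exact nonneg_of_mul_nonneg_left this h2
  calc (Q.card : ℝ) * u ≤ F.card * (r * (N * (C * 2 ^ J * om))) * u :=
        mul_le_mul_of_nonneg_right h1 hu
    _ = r * N * u * (F.card * (C * 2 ^ J * om)) := by ring
    _ ≤ K * 2 ^ J * (F.card * (C * 2 ^ J * om)) := mul_le_mul_of_nonneg_right hK h4
    _ = K * C * (F.card * (om * 4 ^ J)) := by rw [h3]; ring
    _ ≤ K * C * (C * T.card) := mul_le_mul_of_nonneg_left hFc (mul_nonneg hK0 hC)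
    _ = _ := by ring

end Pool.Agent.P.MP_77a832_co.KG
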