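import Mathlib
import Pool.Agent.P.MP_77a832_co.KG.Cnt
import Pool.Agent.P.MP_77a832_co.KC.Defs
import Pool.Agent.P.MP_77a832_co.KP.Por

/-! The web of three pencils attached to a family of tuples. -/

set_option autoImplicit false

namespace Pool.Agent.P.MP_77a832_co.KG

open Finset

/-- slope of the line through two points -/
noncomputable def sl {α : Type} (x y : α → ℝ) (a b : α) : ℝ := (y b - y a) / (x b - x a)

/-- first pole of the pencil `i` -/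
noncomputable def al {α : Type} (x y : α → ℝ) (π : Fin 3 → α) (i : Fin 3) : ℝ :=
  sl x y (π i) (π (i + 1))

/-- second pole of the pencil `i` -/
noncomputable def be {α : Type} (x y : α → ℝ) (π : Fin 3 → α) (i : Fin 3) : ℝ :=
  sl x y (π (i + 2)) (π i)

/-- a sign -/
def sb (b : Bool) : ℝ := if b then 1 else -1

lemma sb_cases (b : Bool) : sb b = 1 ∨ sb b = -1 := by cases b <;> simp [sb]

lemma sb_pos {a t : ℝ} (h : t ≠ a) : 0 < sb (decide (a < t)) * (t - a) := by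
  by_cases c : a < t
  · simp [sb, c]
  · have : t < a := lt_of_le_of_ne (not_lt.mp c) h
    simp [sb, c, this]

lemma branch' (a b e1 e2 : ℝ) (he1 : e1 = 1 ∨ e1 = -1)
    (he2 : e2 = 1 ∨ e2 = -1) (Th : ℕ → ℝ) (n : ℕ) (hTh : ∀ i j, i ≤ j → j ≤ n → Th i ≤ Th j)
    (F : Finset ℝ) :
    ∃ z : ℝ × (ℕ → ℝ), (z.1 = 1 ∨ z.1 = -1) ∧ Monotone z.2 ∧ (a ≠ b →
      (∀ t ≤ n, Th t ∈ KP.Br a b e1 e2 → z.2 t = z.1 * KP.phi a b (Th t)) ∧
      (∀ v ∈ F, v ∈ KP.Br a b e1 e2 → ∀ B < n, Th B < v → v < Th (B + 1) →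
        z.2 B < z.1 * KP.phi a b v ∧ z.1 * KP.phi a b v < z.2 (B + 1))) := by
  by_cases hab : a = b
  · exact ⟨(1, fun _ => 0), Or.inl rfl, monotone_const, fun h => absurd hab h⟩
  · obtain ⟨sg, h1, E, h2, h3, h4⟩ := KP.branch a b e1 e2 hab he1 he2 Th n hTh F
    exact ⟨(sg, E), h1, h2, fun _ => ⟨h3, h4⟩⟩

variable {α τ : Type} {x y : α → ℝ} {P : Finset α} {Th : ℕ → ℝ} {S : α → Finset ℕ}
  {T : Finset τ} {q : τ → α} {p : Fin 3 → τ → α} {lab : Fin 3 → τ → ℕ} {J : ℕ} {om C : ℝ}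

lemma Tup.sl_lo (h : Tup x y P Th S T q p lab J om C) {t : τ} (ht : t ∈ T) (i : Fin 3) :
    Th (lab i t) < sl x y (p i t) (q t) := by
  unfold sl
  rw [lt_div_iff₀ (sub_pos.mpr (h.xlt t ht i))]
  exact h.slo t ht i

lemma Tup.sl_hi (h : Tup x y P Th S T q p lab J om C) {t : τ} (ht : t ∈ T) (i : Fin 3) :
    sl x y (p i t) (q t) < Th (lab i t + 1) := by
  unfold sl
  rw [div_lt_iff₀ (sub_pos.mpr (h.xlt t ht i))]
  exact h.shi t ht i

lemma Tup.sl_ne (h : Tup x y P Th S T q p lab J om C)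
    (hTh : ∀ B B', B ≤ B' → B' ≤ 16 ^ J → Th B ≤ Th B') (hS : ∀ a, ∀ B ∈ S a, B < 16 ^ J)
    {t : τ} (ht : t ∈ T) {i j : Fin 3} (hij : i ≠ j) :
    sl x y (p i t) (q t) ≠ sl x y (p j t) (q t) := by
  have key : ∀ i j : Fin 3, lab i t < lab j t → sl x y (p i t) (q t) < sl x y (p j t) (q t) := by
    intro i j hl
    have := hTh (lab i t + 1) (lab j t) hl (hS _ _ (h.mem t ht j)).le
    linarith [h.sl_hi ht i, h.sl_lo ht j]
  rcases lt_or_gt_of_ne (h.dif t ht i j hij) with c | c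
  · exact (key i j c).ne
  · exact (key j i c).ne'

lemma Tup.p_ne (h : Tup x y P Th S T q p lab J om C)
    (hTh : ∀ B B', B ≤ B' → B' ≤ 16 ^ J → Th B ≤ Th B') (hS : ∀ a, ∀ B ∈ S a, B < 16 ^ J)
    {t : τ} (ht : t ∈ T) {i j : Fin 3} (hij : i ≠ j) : p i t ≠ p j t := by
  intro e
  exact h.sl_ne hTh hS ht hij (by rw [e])

lemma Tup.geo (h : Tup x y P Th S T q p lab J om C)
    (hTh : ∀ B B', B ≤ B' → B' ≤ 16 ^ J → Th B ≤ Th B') (hS : ∀ a, ∀ B ∈ S a, B < 16 ^ J)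
    (gx : ∀ a ∈ P, ∀ b ∈ P, a ≠ b → x a ≠ x b)
    (gc : ∀ a ∈ P, ∀ b ∈ P, ∀ c ∈ P, a ≠ b → a ≠ c → b ≠ c →
      (x b - x a) * (y c - y a) ≠ (x c - x a) * (y b - y a))
    {t : τ} (ht : t ∈ T) :
    (∑ i, KP.phi (al x y (fun k => p k t) i) (be x y (fun k => p k t) i)
      (sl x y (p i t) (q t)) = 0) ∧
    ∀ i, sl x y (p i t) (q t) ≠ al x y (fun k => p k t) i ∧
      sl x y (p i t) (q t) ≠ be x y (fun k => p k t) i ∧
      al x y (fun k => p k t) i ≠ be x y (fun k => p k t) i := by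
  have xn : ∀ i j : Fin 3, i ≠ j → x (p i t) ≠ x (p j t) := fun i j hij =>
    gx _ (h.pP t ht i) _ (h.pP t ht j) (h.p_ne hTh hS ht hij)
  obtain ⟨c0, c1, c2, c3⟩ := KP.ceva (x (q t)) (y (q t)) (x (p 0 t)) (y (p 0 t)) (x (p 1 t))
    (y (p 1 t)) (x (p 2 t)) (y (p 2 t)) (h.xlt t ht 0) (h.xlt t ht 1) (h.xlt t ht 2)
    (xn 0 1 (by decide)) (xn 1 2 (by decide)) (xn 2 0 (by decide))
    (h.sl_ne hTh hS ht (by decide : (0 : Fin 3) ≠ 1))
    (h.sl_ne hTh hS ht (by decide : (1 : Fin 3) ≠ 2))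
    (h.sl_ne hTh hS ht (by decide : (2 : Fin 3) ≠ 0))
  have ab : ∀ i : Fin 3, al x y (fun k => p k t) i ≠ be x y (fun k => p k t) i := by
    intro i e
    have n1 : i ≠ i + 1 := by fin_cases i <;> decide
    have n2 : i ≠ i + 2 := by fin_cases i <;> decide
    have n3 : i + 1 ≠ i + 2 := by fin_cases i <;> decide
    unfold al be sl at e
    rw [div_eq_div_iff (sub_ne_zero.mpr (xn _ _ n1).symm) (sub_ne_zero.mpr (xn _ _ n2))] at e
    apply gc _ (h.pP t ht i) _ (h.pP t ht (i + 1)) _ (h.pP t ht (i + 2)) (h.p_ne hTh hS ht n1)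
      (h.p_ne hTh hS ht n2) (h.p_ne hTh hS ht n3)
    linarith
  refine ⟨?_, fun i => ⟨?_, ?_, ab i⟩⟩
  · rw [Fin.sum_univ_three]
    exact c0
  · fin_cases i
    · exact sub_ne_zero.mp (left_ne_zero_of_mul c1.ne')
    · exact sub_ne_zero.mp (left_ne_zero_of_mul c2.ne')
    · exact sub_ne_zero.mp (left_ne_zero_of_mul c3.ne')
  · fin_cases i
    · exact sub_ne_zero.mp (right_ne_zero_of_mul c3.ne')
    · exact sub_ne_zero.mp (right_ne_zero_of_mul c1.ne')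
    · exact sub_ne_zero.mp (right_ne_zero_of_mul c2.ne')

theorem Tup.web (h : Tup x y P Th S T q p lab J om C)
    (hTh : ∀ B B', B ≤ B' → B' ≤ 16 ^ J → Th B ≤ Th B') (hS : ∀ a, ∀ B ∈ S a, B < 16 ^ J)
    (gx : ∀ a ∈ P, ∀ b ∈ P, a ≠ b → x a ≠ x b)
    (gc : ∀ a ∈ P, ∀ b ∈ P, ∀ c ∈ P, a ≠ b → a ≠ c → b ≠ c →
      (x b - x a) * (y c - y a) ≠ (x c - x a) * (y b - y a)) :
    ∃ W : KC.Web τ ((Fin 3 → α) × (Fin 3 → Bool × Bool)), W.T = T ∧ W.J = J ∧ W.om = om ∧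
      W.lab = lab ∧ (∀ t, (W.fib t).1 = fun k => p k t) ∧ (∀ f i, W.S f i = S (f.1 i)) ∧
      ∀ t ∈ T, ∀ i, ∃ e1 e2 sg v : ℝ, (sg = 1 ∨ sg = -1) ∧
        (∀ s ≤ 16 ^ J, Th s ∈ KP.Br (al x y (fun k => p k t) i) (be x y (fun k => p k t) i) e1 e2 →
          W.E (W.fib t) i s =
            sg * KP.phi (al x y (fun k => p k t) i) (be x y (fun k => p k t) i) (Th s)) ∧
        v ∈ KP.Br (al x y (fun k => p k t) i) (be x y (fun k => p k t) i) e1 e2 ∧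
        Th (lab i t) < v ∧ v < Th (lab i t + 1) := by
  classical
  have hb : ∀ (f : (Fin 3 → α) × (Fin 3 → Bool × Bool)) (i : Fin 3), _ := fun f i =>
    branch' (al x y f.1 i) (be x y f.1 i) (sb (f.2 i).1) (sb (f.2 i).2) (sb_cases _) (sb_cases _)
      Th (16 ^ J) hTh (T.image fun t => sl x y (p i t) (q t))
  choose z hz1 hz2 hz3 using hb
  set fib : τ → (Fin 3 → α) × (Fin 3 → Bool × Bool) := fun t => (fun k => p k t, fun i =>
    (decide (al x y (fun k => p k t) i < sl x y (p i t) (q t)),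
      decide (be x y (fun k => p k t) i < sl x y (p i t) (q t)))) with hfib
  have hbr : ∀ t ∈ T, ∀ i, sl x y (p i t) (q t) ∈ KP.Br (al x y (fib t).1 i) (be x y (fib t).1 i)
      (sb ((fib t).2 i).1) (sb ((fib t).2 i).2) := by
    intro t ht i
    obtain ⟨a1, a2, _⟩ := (h.geo hTh hS gx gc ht).2 i
    exact ⟨sb_pos a1, sb_pos a2⟩
  have hab : ∀ t ∈ T, ∀ i, al x y (fib t).1 i ≠ be x y (fib t).1 i := fun t ht i =>
    ((h.geo hTh hS gx gc ht).2 i).2.2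
  have hin : ∀ t ∈ T, ∀ i, _ := fun t ht i =>
    (hz3 (fib t) i (hab t ht i)).2 _ (mem_image_of_mem _ ht) (hbr t ht i) (lab i t)
      (hS _ _ (h.mem t ht i)) (h.sl_lo ht i) (h.sl_hi ht i)
  refine ⟨⟨T, fib, lab, fun i t => (z (fib t) i).1 *
      KP.phi (al x y (fib t).1 i) (be x y (fib t).1 i) (sl x y (p i t) (q t)),
      fun f i => (z f i).2, fun f i => S (f.1 i), fun f i => (z f i).1, J, om, hz2,
      fun t ht i => (hin t ht i).1, fun t ht i => (hin t ht i).2, fun t ht i => h.mem t ht i,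
      fun f i B hB => hS _ B hB, hz1, ?_, ?_⟩, rfl, rfl, rfl, rfl, fun _ => rfl, fun _ _ => rfl, ?_⟩
  · intro t ht
    rw [← (h.geo hTh hS gx gc ht).1]
    refine sum_congr rfl fun i _ => ?_
    rw [← mul_assoc]
    rcases hz1 (fib t) i with e | e <;> rw [e] <;> simp [hfib]
  · intro f i j hij B B' Q hQ hq
    exact h.pair f.1 i j hij B B' Q hQ fun t ht =>
      ⟨fun k => congrFun (congrArg Prod.fst (hq t ht).1) k, (hq t ht).2⟩
  · intro t ht i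
    exact ⟨_, _, _, _, hz1 (fib t) i, (hz3 (fib t) i (hab t ht i)).1, hbr t ht i, h.sl_lo ht i,
      h.sl_hi ht i⟩

end Pool.Agent.P.MP_77a832_co.KG
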