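import Mathlib
import Pool.Agent.P.MP_77a832_co.KG.Web

/-! From tuples of points to the abstract core. -/

set_option autoImplicit false

namespace Pool.Agent.P.MP_77a832_co.KG

open Finset

lemma tp {a b : ℕ} (h : a ≤ b) : (2 : ℝ) ^ a ≤ 2 ^ b := pow_le_pow_right₀ (by norm_num) h

lemma p16 (a : ℕ) : (16 : ℝ) ^ a = 2 ^ (4 * a) := by rw [pow_mul]; norm_num

variable {α τ : Type} {x y : α → ℝ} {P : Finset α} {Th : ℕ → ℝ} {S : α → Finset ℕ}
  {T : Finset τ} {q : τ → α} {p : Fin 3 → τ → α} {lab : Fin 3 → τ → ℕ} {J : ℕ} {om C : ℝ}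

lemma sm_lo (hT : Tails P S J C) (h : Tup x y P Th S T q p lab J om C) (i : Fin 3) {e : ℕ}
    (he : e ≤ J) (w : ℕ) : Sm T (2 ^ w) (C * C) fun t =>
      (2 : ℝ) ^ (4 * w) * ((wn S (p i t) e (lab i t)).card : ℝ) < 2 ^ e :=
  (h.sm_marg i (fun c => (2 : ℝ) ^ (4 * w) * ((wn S c.1 e c.2).card : ℝ) < 2 ^ e) (2 ^ (4 * w)) C
    (by positivity) (hT.lo e he _ (by positivity))).le (tp (by omega)) le_rfl

lemma sm_up (hT : Tails P S J C) (h : Tup x y P Th S T q p lab J om C) (i : Fin 3) {e : ℕ}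
    (he : e ≤ J) (w : ℕ) : Sm T (2 ^ w) (C * C) fun t =>
      (2 : ℝ) ^ (4 * w) * 2 ^ e < ((wn S (p i t) e (lab i t)).card : ℝ) := by
  have := h.sm_marg i (fun c => ((2 : ℝ) ^ w) ^ 4 * 2 ^ e < ((wn S c.1 e c.2).card : ℝ)) (2 ^ w) C
    (by positivity) (hT.up e he _ (one_le_pow₀ (by norm_num)))
  refine this.imp fun t _ ht => ?_
  rwa [← pow_mul, mul_comm w 4]

lemma bd_aux {a n : ℝ} {w e : ℕ} (hC : 0 ≤ C) (hn : 0 ≤ n) (hwe : w ≤ e)
    (h : a ≤ C * (1 / 2 ^ w + 1 / 2 ^ e) * n) : a * 2 ^ w ≤ 2 * C * n := by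
  have h1 : (1 : ℝ) / 2 ^ e ≤ 1 / 2 ^ w := one_div_le_one_div_of_le (by positivity) (tp hwe)
  have h2 : C * (1 / 2 ^ w + 1 / 2 ^ e) * n ≤ C * (1 / 2 ^ w + 1 / 2 ^ w) * n := by gcongr
  have h3 : (0 : ℝ) < 2 ^ w := by positivity
  calc a * 2 ^ w ≤ C * (1 / 2 ^ w + 1 / 2 ^ w) * n * 2 ^ w :=
        mul_le_mul_of_nonneg_right (h.trans h2) h3.le
    _ = 2 * C * n := by field_simp; ring

lemma sm_bl (hT : Tails P S J C) (h : Tup x y P Th S T q p lab J om C) (i : Fin 3) {e : ℕ}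
    (he : e ≤ J) {w : ℕ} (hwe : w ≤ e) : Sm T (2 ^ w) (2 * C * C) fun t =>
      (((wn S (p i t) e (lab i t)).filter fun A => A < lab i t).card : ℝ) < 1 / 2 ^ w * 2 ^ e :=
  h.sm_marg i (fun c => (((wn S c.1 e c.2).filter fun A => A < c.2).card : ℝ) < 1 / 2 ^ w * 2 ^ e)
    (2 ^ w) (2 * C) (by positivity) fun Q hQ =>
      bd_aux h.C_nonneg h.P_pos.le hwe (hT.bl e he _ (by positivity) Q hQ)

lemma sm_br (hT : Tails P S J C) (h : Tup x y P Th S T q p lab J om C) (i : Fin 3) {e : ℕ}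
    (he : e ≤ J) {w : ℕ} (hwe : w ≤ e) : Sm T (2 ^ w) (2 * C * C) fun t =>
      (((wn S (p i t) e (lab i t)).filter fun A => lab i t < A).card : ℝ) < 1 / 2 ^ w * 2 ^ e :=
  h.sm_marg i (fun c => (((wn S c.1 e c.2).filter fun A => c.2 < A).card : ℝ) < 1 / 2 ^ w * 2 ^ e)
    (2 ^ w) (2 * C) (by positivity) fun Q hQ =>
      bd_aux h.C_nonneg h.P_pos.le hwe (hT.br e he _ (by positivity) Q hQ)

lemma sm_hv (hT : Tails P S J C) (h : Tup x y P Th S T q p lab J om C) (i : Fin 3) {e : ℕ}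
    (he : e ≤ J) {v : ℕ} (hve : 1569 * (4 * v) ≤ e) : Sm T (2 ^ v) (C * C) fun t =>
      ((wn S (p i t) e (lab i t)).card : ℝ) ≤ 2 ^ (4 * (4 * v)) * 2 ^ e ∧
      ∃ u : ℕ, 1 / 2 ^ (310 * (4 * v)) * 2 ^ e < (((wn S (p i t) e (lab i t)).filter
        fun A => A / 16 ^ (e - 1569 * (4 * v)) = u).card : ℝ) := by
  refine h.sm_marg i (fun c => ((wn S c.1 e c.2).card : ℝ) ≤ 2 ^ (4 * (4 * v)) * 2 ^ e ∧
      ∃ u : ℕ, 1 / 2 ^ (310 * (4 * v)) * 2 ^ e < (((wn S c.1 e c.2).filter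
        fun A => A / 16 ^ (e - 1569 * (4 * v)) = u).card : ℝ)) (2 ^ v) C (by positivity) ?_
  intro Q hQ
  have h1 := hT.hv e he (e - 1569 * (4 * v)) (Nat.sub_le _ _) (2 ^ (4 * (4 * v)))
    (1 / 2 ^ (310 * (4 * v))) (2 ^ (1259 * v)) (by positivity) (by positivity)
    (one_le_pow₀ (by norm_num)) (by
      rw [one_div_mul_eq_div, le_div_iff₀ (by positivity), ← pow_mul, ← pow_add, ← pow_add]
      exact tp (by omega)) Q hQ
  have h2 : (2 : ℝ) ^ v * 2 ^ (4 * (4 * v)) ≤ 2 ^ (1259 * v) * (1 / 2 ^ (310 * (4 * v))) := by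
    rw [mul_one_div, le_div_iff₀ (by positivity), ← pow_add, ← pow_add]
    exact tp (by omega)
  have h3 : (0 : ℝ) < 2 ^ (4 * (4 * v)) := by positivity
  have h4 : (Q.card : ℝ) * 2 ^ v * 2 ^ (4 * (4 * v)) ≤
      C * (P.card * 2 ^ J) * 2 ^ (4 * (4 * v)) := by
    calc (Q.card : ℝ) * 2 ^ v * 2 ^ (4 * (4 * v)) = Q.card * (2 ^ v * 2 ^ (4 * (4 * v))) := by ring
      _ ≤ Q.card * (2 ^ (1259 * v) * (1 / 2 ^ (310 * (4 * v)))) :=
        mul_le_mul_of_nonneg_left h2 (Nat.cast_nonneg _)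
      _ ≤ _ := h1
      _ = _ := by ring
  exact le_of_mul_le_mul_right h4 h3

lemma sm_por (hT : Tails P S J C) (h : Tup x y P Th S T q p lab J om C)
    (hTh : ∀ B B', B ≤ B' → B' ≤ 16 ^ J → Th B ≤ Th B') (hS : ∀ a, ∀ B ∈ S a, B < 16 ^ J)
    (E : τ → ℕ → ℝ) (i : Fin 3) (hE : ∀ t, Monotone (E t))
    (hW : ∀ t ∈ T, ∃ e1 e2 sg v : ℝ, (sg = 1 ∨ sg = -1) ∧
        (∀ s ≤ 16 ^ J, Th s ∈ KP.Br (al x y (fun k => p k t) i) (be x y (fun k => p k t) i) e1 e2 →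
          E t s = sg * KP.phi (al x y (fun k => p k t) i) (be x y (fun k => p k t) i) (Th s)) ∧
        v ∈ KP.Br (al x y (fun k => p k t) i) (be x y (fun k => p k t) i) e1 e2 ∧
        Th (lab i t) < v ∧ v < Th (lab i t + 1))
    {g w : ℕ} (hw : 6 ≤ w) (hg : g + 30 * w ≤ J) : Sm T (2 ^ w) (9 * (C * C)) fun t =>
      ¬ (2 : ℝ) ^ (15 * w) * (E t ((lab i t / 16 ^ g + 1) * 16 ^ g) - E t (lab i t / 16 ^ g * 16 ^ g)) ≤
        E t ((lab i t / 16 ^ (g + 5 * w) + 1) * 16 ^ (g + 5 * w)) -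
          E t (lab i t / 16 ^ (g + 5 * w) * 16 ^ (g + 5 * w)) := by
  obtain ⟨Z, hZ1, hZ2, hZ3⟩ := KP.por_cover Th J g (5 * w) (J - 5 * w) hTh (by omega) (by omega)
    (2 ^ (15 * w)) (by positivity)
  choose V1 V2 hV1 hV2 hV3 using hZ3
  have a1 := sm_up hT h i (e := J - 5 * w) (by omega) w
  have a2 := sm_up hT h i (e := g + 5 * w) (by omega) w
  have a3 := h.sm_fib i (J - 5 * w) (fun π => V1 (al x y π i) (be x y π i)) 4
    (2 ^ (4 * w) * 2 ^ (J - 5 * w)) (2 ^ w) 4 (by positivity) (by positivity)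
    (fun π => by exact_mod_cast hV1 _ _) (by
      rw [mul_assoc, ← pow_add, ← pow_add]
      exact mul_le_mul_of_nonneg_left (tp (by omega)) (by norm_num))
  have a4 := h.sm_fib i (g + 5 * w) (fun π => V2 (al x y π i) (be x y π i))
    (2 * 16 ^ (J - (J - 5 * w))) (2 ^ (4 * w) * 2 ^ (g + 5 * w)) (2 ^ w) 2 (by positivity)
    (by positivity) (fun π => by exact_mod_cast hV2 _ _) (by
      rw [p16, mul_assoc, mul_assoc, ← pow_add, ← pow_add, ← pow_add]
      exact mul_le_mul_of_nonneg_left (tp (by omega)) (by norm_num))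
  have a5 := h.sm_marg i (fun c => c.2 / 16 ^ g ∈ Z) (2 ^ w) C (by positivity)
    (hT.sp g (by omega) (2 ^ w) (one_le_pow₀ (by norm_num)) Z hZ2 (by
      have b1 : (36 : ℝ) ≤ 2 ^ w := le_trans (by norm_num) (tp hw)
      calc (Z.card : ℝ) * (2 ^ w) ^ 4 ≤ 36 * 2 ^ (15 * w) * 16 ^ (J - (g + 5 * w)) * (2 ^ w) ^ 4 :=
            mul_le_mul_of_nonneg_right hZ1 (by positivity)
        _ ≤ 2 ^ w * 2 ^ (15 * w) * 16 ^ (J - (g + 5 * w)) * (2 ^ w) ^ 4 := by gcongr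
        _ ≤ 16 ^ (J - g) := by
            rw [p16, p16, ← pow_mul, ← pow_add, ← pow_add, ← pow_add]
            exact tp (by omega)))
  refine ((((a1.or a2).or a3).or a4).or a5 |>.imp ?_).le le_rfl (le_of_eq (by ring))
  intro t ht hn
  by_contra hc
  simp only [not_or, not_and, not_lt] at hc
  obtain ⟨⟨⟨⟨c1, c2⟩, c3⟩, c4⟩, c5⟩ := hc
  obtain ⟨e1, e2, sg, v, d1, d2, d3, d4, d5⟩ := hW t ht
  exact hn (hV3 _ _ e1 e2 sg (E t) d1 (hE t) d2 (lab i t) (hS _ _ (h.mem t ht i)) v d3 d4 d5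
    (fun r => c3 r c1) (fun r => c4 r c2) c5)

lemma ex_v (A B : ℝ) : ∃ v : ℕ, 3 ≤ v ∧ A * v ≤ 2 ^ v ∧ B ≤ 2 ^ v := by
  obtain ⟨n, hn⟩ := exists_nat_ge (max (max A B) 3)
  have h3 : (3 : ℝ) ≤ n := (le_max_right _ _).trans hn
  have hA : A ≤ n := (le_max_left _ _).trans ((le_max_left _ _).trans hn)
  have hB : B ≤ n := (le_max_right _ _).trans ((le_max_left _ _).trans hn)
  have h3' : 3 ≤ n := by exact_mod_cast h3
  have k1 : (n : ℝ) ≤ 2 ^ n := by exact_mod_cast (Nat.lt_two_pow_self (n := n)).le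
  have k2 : ((2 * n : ℕ) : ℝ) ≤ 2 ^ n := by
    have : 2 * n ≤ 2 ^ n := by
      obtain ⟨m, rfl⟩ : ∃ m, n = m + 1 := ⟨n - 1, by omega⟩
      have := Nat.lt_two_pow_self (n := m)
      rw [pow_succ]; omega
    exact_mod_cast this
  refine ⟨2 * n, by omega, ?_, hB.trans (k1.trans (tp (by omega)))⟩
  calc A * ((2 * n : ℕ) : ℝ) ≤ n * ((2 * n : ℕ) : ℝ) :=
        mul_le_mul_of_nonneg_right hA (Nat.cast_nonneg _)
    _ ≤ 2 ^ n * 2 ^ n := mul_le_mul k1 k2 (Nat.cast_nonneg _) (by positivity)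
    _ = 2 ^ (2 * n) := by rw [← pow_add, two_mul]

theorem glue (core : KC.S_CORE) : S_GLUE := by
  intro C
  obtain ⟨v, hv3, hvA, hvB⟩ := ex_v (200000 * (C * C)) (6400 * (C * C * C))
  obtain ⟨w, hw⟩ : ∃ w, w = 4 * v := ⟨_, rfl⟩
  obtain ⟨R, hR⟩ : ∃ R, R = 1569 * w * 2 ^ (630 * w) := ⟨_, rfl⟩
  refine ⟨5 * R + 2000 * w, ?_⟩
  intro J hJ α τ x y P Th S T q p lab om hTh gx gc hS hT h
  classical
  obtain ⟨W, e1, e2, e3, e4, e5, e6, hW⟩ := h.web hTh hS gx gc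
  have hC := h.C_nonneg
  have hom := h.om_nonneg
  have hvw : (2 : ℝ) ^ v ≤ 2 ^ w := tp (by omega)
  have hwin : ∀ i e t, W.win (W.fib t) i e (W.lab i t) = wn S (p i t) e (lab i t) := by
    intro i e t
    unfold KC.Web.win wn
    rw [e6, e5, e4]
  refine core W (T.image W.fib) w (J - R - 25 * w) (by omega) (e1 ▸ h.ne)
    (fun t ht => mem_image_of_mem _ (e1 ▸ ht)) (by omega) (by rw [e2]; omega) ?_ ?_
  · intro i j _
    obtain ⟨F, hF, hFc⟩ := h.trip
    have b1 : ((T.image W.fib).card : ℝ) ≤ F.card * 64 := by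
      have : T.image W.fib ⊆ F ×ˢ (univ : Finset (Fin 3 → Bool × Bool)) := by
        intro f hf
        obtain ⟨t, ht, rfl⟩ := mem_image.mp hf
        exact mem_product.mpr ⟨e5 t ▸ hF t ht, mem_univ _⟩
      have h2 := card_le_card this
      rw [card_product] at h2
      have h3 : (univ : Finset (Fin 3 → Bool × Bool)).card = 64 := by simp
      rw [h3] at h2
      exact_mod_cast h2
    have b2 : ∑ f ∈ T.image W.fib, (((W.S f i).card : ℝ) * (W.S f j).card) ≤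
        (T.image W.fib).card * (C * 2 ^ J * (C * 2 ^ J)) := by
      rw [← nsmul_eq_mul]
      refine sum_le_card_nsmul _ _ _ fun f hf => ?_
      obtain ⟨t, ht, rfl⟩ := mem_image.mp hf
      rw [e6, e6, e5]
      exact mul_le_mul (h.Sle t ht i) (h.Sle t ht j) (Nat.cast_nonneg _) (by positivity)
    have h3 : (4 : ℝ) ^ J = 2 ^ J * 2 ^ J := by rw [← mul_pow]; norm_num
    rw [e3, e1]
    calc 100 * om * ∑ f ∈ T.image W.fib, (((W.S f i).card : ℝ) * (W.S f j).card)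
        ≤ 100 * om * (F.card * 64 * (C * 2 ^ J * (C * 2 ^ J))) :=
          mul_le_mul_of_nonneg_left (b2.trans (mul_le_mul_of_nonneg_right b1 (by positivity)))
            (by positivity)
      _ = 6400 * (C * C) * (F.card * (om * 4 ^ J)) := by rw [h3]; ring
      _ ≤ 6400 * (C * C) * (C * T.card) := mul_le_mul_of_nonneg_left hFc (by positivity)
      _ = 6400 * (C * C * C) * T.card := by ring
      _ ≤ 2 ^ w * T.card := mul_le_mul_of_nonneg_right (hvB.trans hvw) (Nat.cast_nonneg _)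
  · intro e he1 he2 Q hQ hq
    rw [← hR] at he2
    rw [e1] at hQ ⊢
    have heJ : e + 25 * w ≤ J := by omega
    have hew : 1569 * w ≤ e := by omega
    have key : ∀ i ∈ (univ : Finset (Fin 3)), Sm T (2 ^ v) _ _ := fun i _ =>
      ((((Sm.bex (Icc (e - 139 * w) e) fun g hg =>
        ((sm_lo hT h i (e := g) ((mem_Icc.mp hg).2.trans (by omega)) w).or
          (sm_up hT h i (e := g) ((mem_Icc.mp hg).2.trans (by omega)) w)).le hvw le_rfl).or
        (((sm_bl hT h i (e := e) (by omega) (w := w) (by omega)).or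
          (sm_br hT h i (e := e) (by omega) (w := w) (by omega))).le hvw le_rfl)).or
        (sm_hv hT h i (e := e) (by omega) (v := v) (by omega))).or
        (Sm.bex (Icc (e - 139 * w) (e - 5 * w)) fun g hg =>
          (sm_por hT h hTh hS (fun t => W.E (W.fib t) i) i (fun t => W.mono _ _)
            (fun t ht => hW t ht i) (g := g) (w := w) (by omega)
            (by have := (mem_Icc.mp hg).2; omega)).le hvw le_rfl))
    have fin := Sm.bex univ key Q hQ (by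
      intro t ht
      have hn := hq t ht
      by_contra hc
      apply hn
      intro i
      have hi := fun r => hc ⟨i, mem_univ i, r⟩
      simp only [imp_false, not_or, not_exists, not_and, not_lt, not_not] at hi
      obtain ⟨⟨⟨c1, c2, c3⟩, c4⟩, c5⟩ := hi
      refine ⟨fun g g1 g2 => ?_, ?_, ?_, fun g g1 g2 => ?_⟩
      · have := c1 g (mem_Icc.mpr ⟨by omega, g2⟩)
        unfold KC.Web.Lo KC.Web.Up KC.Web.N
        rw [hwin]
        exact this
      · unfold KC.Web.Bd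
        rw [hwin, e4]
        exact ⟨c2, c3⟩
      · unfold KC.Web.At
        rw [hwin, hw]
        refine c4 ?_
        rw [← hw]
        exact (c1 e (mem_Icc.mpr ⟨by omega, le_rfl⟩)).2
      · unfold KC.Web.Por KC.Web.len KC.Web.en KC.Web.st
        rw [e4]
        exact c5 g (mem_Icc.mpr ⟨by omega, by omega⟩))
    have n1 : ((Icc (e - 139 * w) e).card : ℝ) ≤ 560 * v := by
      have : (Icc (e - 139 * w) e).card ≤ 560 * v := by rw [Nat.card_Icc]; omega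
      exact_mod_cast this
    have n2 : ((Icc (e - 139 * w) (e - 5 * w)).card : ℝ) ≤ 560 * v := by
      have : (Icc (e - 139 * w) (e - 5 * w)).card ≤ 560 * v := by rw [Nat.card_Icc]; omega
      exact_mod_cast this
    have n3 : ((univ : Finset (Fin 3)).card : ℝ) = 3 := by simp
    have n4 : (3 : ℝ) ≤ v := by exact_mod_cast hv3
    have n5 : 0 ≤ C * C := mul_nonneg hC hC
    rw [n3] at fin
    have n6 : 8 * (3 * (((Icc (e - 139 * w) e).card : ℝ) * (C * C + C * C) +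
        (2 * C * C + 2 * C * C) + C * C +
        ((Icc (e - 139 * w) (e - 5 * w)).card : ℝ) * (9 * (C * C)))) ≤ 2 ^ v := by
      refine le_trans ?_ hvA
      have m1 := mul_le_mul_of_nonneg_right n1 n5
      have m2 := mul_le_mul_of_nonneg_right n2 n5
      have m3 := mul_le_mul_of_nonneg_right n4 n5
      nlinarith
    have n7 : (0 : ℝ) < 2 ^ v := by positivity
    have n8 : (8 * Q.card : ℝ) * 2 ^ v ≤ T.card * 2 ^ v := by
      have := mul_le_mul_of_nonneg_right n6 (Nat.cast_nonneg (α := ℝ) T.card)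
      linarith
    exact_mod_cast le_of_mul_le_mul_right n8 n7

end Pool.Agent.P.MP_77a832_co.KG
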